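import Pool.Agent.Y706.CH.Stm

/-!
# Project CH: the local dichotomy at a place (job CH-LOC2)
-/

namespace Pool.Agent.Y86.CH

open Pool.Agent.W277.UB Pool.Agent.W277.UG Pool.Agent.W277.UH Finset Polynomial
open Pool.Agent.Y706.BI (UV eqv fU hh G0 gg rt Av)
open Pool.Agent.Y706.CH

universe u v w

/-! ### The norm of the homogeneous map -/

section norms
variable {Ω : Type*} [NormedField Ω] [IsUltrametricDist Ω]

lemma norm_sum_le_of {ι : Type*} (s : Finset ι) (f : ι → Ω) {B : ℝ} (hB : 0 ≤ B)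
    (h : ∀ i ∈ s, ‖f i‖ ≤ B) : ‖∑ i ∈ s, f i‖ ≤ B :=
  IsUltrametricDist.norm_sum_le_of_forall_le_of_nonneg hB h

lemma norm_hev_le (d : ℕ) (p : Polynomial Ω) {M : ℝ} (hM : ∀ i, ‖p.coeff i‖ ≤ Real.exp M)
    (X : Ω × Ω) : ‖hev d p X‖ ≤ Real.exp M * ‖X‖ ^ d := by
  unfold hev
  refine norm_sum_le_of _ _ (by positivity) fun i hi => ?_
  rw [Finset.mem_range] at hi
  rw [norm_mul, norm_mul, norm_pow, norm_pow, mul_assoc]
  refine mul_le_mul (hM i) ?_ (by positivity) (Real.exp_pos _).le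
  calc ‖X.1‖ ^ i * ‖X.2‖ ^ (d - i) ≤ ‖X‖ ^ i * ‖X‖ ^ (d - i) :=
        mul_le_mul (pow_le_pow_left₀ (norm_nonneg _) (norm_fst_le X) _)
          (pow_le_pow_left₀ (norm_nonneg _) (norm_snd_le X) _) (by positivity) (by positivity)
    _ = ‖X‖ ^ d := by rw [← pow_add]; congr 1; omega

lemma norm_bF_le (d : ℕ) (p q : Polynomial Ω) {M : ℝ} (hp : ∀ i, ‖p.coeff i‖ ≤ Real.exp M)
    (hq : ∀ i, ‖q.coeff i‖ ≤ Real.exp M) (X : Ω × Ω) :
    ‖bF d p q X‖ ≤ Real.exp M * ‖X‖ ^ d := by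
  unfold bF
  rw [Prod.norm_def]
  exact max_le (norm_hev_le d p hp X) (norm_hev_le d q hq X)

lemma exists_norm_eq (W : Ω × Ω) : ∃ t : Ω, ‖t‖ = ‖W‖ := by
  rw [Prod.norm_def]
  rcases le_total ‖W.1‖ ‖W.2‖ with h | h
  · exact ⟨W.2, (max_eq_right h).symm⟩
  · exact ⟨W.1, (max_eq_left h).symm⟩

/-- the lower bound for the size of the map in terms of its Gauss norm -/
lemma norm_F_lower (hnat : ∀ n : ℕ, n ≠ 0 → ‖(n : Ω)‖ = 1) (S : HS Ω) (X : Ω × Ω) (hX : X ≠ 0) :
    -S.Res - (2 * (S.d : ℝ) - 1) * Real.log S.gs + S.d * Real.log ‖X‖ ≤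
      Real.log ‖S.F X‖ := by
  obtain ⟨B, -⟩ := exists_fam hnat
  obtain ⟨E, hE⟩ := HS.gs_attained (S := S) B
  obtain ⟨i, hi⟩ := Infinite.exists_notMem_finset E
  obtain ⟨t, ht⟩ := exists_norm_eq (S.F (B.b i))
  rw [hE i hi] at ht
  have hg := HS.gs_pos (S := S)
  have ht0 : t ≠ 0 := by
    rw [← norm_pos_iff, ht]
    exact hg
  have hw : wd ((1, 0) : Ω × Ω) (0, 1) = 1 := by unfold wd; simp
  have hw0 : wd ((1, 0) : Ω × Ω) (0, 1) ≠ 0 := by rw [hw]; exact one_ne_zero
  have hti : t⁻¹ ≠ 0 := inv_ne_zero ht0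
  set S' := S.conj (1, 0) (0, 1) hw0 t⁻¹ hti with hS'
  have hF : ∀ Y, S'.F Y = t⁻¹ • S.F Y := by
    intro Y
    change t⁻¹ • gi ((1, 0) : Ω × Ω) (0, 1) (S.F (gm ((1, 0) : Ω × Ω) (0, 1) Y)) = _
    have h1 : gm ((1, 0) : Ω × Ω) (0, 1) Y = Y := by
      unfold gm
      ext <;> simp
    have h2 : ∀ Z : Ω × Ω, gi ((1, 0) : Ω × Ω) (0, 1) Z = Z := by
      intro Z
      unfold gi wd
      ext <;> simp
    rw [h1, h2]
  have hd' : S'.d = S.d := rfl
  have hR' : S'.Res = S.Res + 2 * S.d * Real.log S.gs := by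
    change S.Res - (S.d * ((S.d : ℝ) - 1)) * Real.log ‖wd ((1, 0) : Ω × Ω) (0, 1)‖ -
      2 * S.d * Real.log ‖t⁻¹‖ = _
    rw [hw, norm_inv, ht, Real.log_inv]
    simp
  have hg' : S'.gs ≤ 1 := by
    obtain ⟨E', hE'⟩ := HS.gs_attained (S := S') B
    obtain ⟨j, hj⟩ := Infinite.exists_notMem_finset E'
    rw [← hE' j hj, hF, norm_smul, norm_inv, ht]
    have h1 : ‖S.F (B.b j)‖ ≤ S.gs := HS.le_gs (B.unit j).le
    rw [inv_mul_le_iff₀ hg, mul_one]
    exact h1
  have h3 := HS.norm_F_ge (S := S') B hg' X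
  rw [hF, norm_smul, norm_inv, ht, hd', hR'] at h3
  have hX' : 0 < ‖X‖ := norm_pos_iff.mpr hX
  have hFX : 0 < ‖S.F X‖ := norm_pos_iff.mpr (S.nz X hX)
  have h4 := Real.log_le_log (by positivity) h3
  rw [Real.log_mul (Real.exp_pos _).ne' (by positivity), Real.log_exp, Real.log_pow,
    Real.log_mul (by positivity) hFX.ne', Real.log_inv] at h4
  linarith

end norms

/-! ### Vectors over `K` -/

section vec
variable {K : Type*} [Field K]

lemma bK_ne (d : ℕ) (p q : K[X]) (hp : p.natDegree ≤ d) (hq : q.natDegree = d)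
    (hd : 1 ≤ d) (hco : IsCoprime p q) (X : K × K) (hX : X ≠ 0) : bK d p q X ≠ 0 := by
  intro h
  have h1 : hev d p X = 0 := congrArg Prod.fst h
  have h2 : hev d q X = 0 := congrArg Prod.snd h
  by_cases hX2 : X.2 = 0
  · have hX' : X = (X.1, 0) := Prod.ext rfl hX2
    rw [hX', hev_zero] at h2
    have hq0 : q.coeff d ≠ 0 := by
      rw [← hq]
      apply Polynomial.leadingCoeff_ne_zero.mpr
      rintro rfl
      simp at hq
      omega
    have h3 := (mul_eq_zero.mp h2).resolve_left hq0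
    have h4 : X.1 = 0 := by
      by_contra h5
      exact pow_ne_zero _ h5 h3
    exact hX (Prod.ext h4 hX2)
  · rw [hev_eval d p hp X hX2] at h1
    rw [hev_eval d q hq.le X hX2] at h2
    have e1 := (mul_eq_zero.mp h1).resolve_left (pow_ne_zero _ hX2)
    have e2 := (mul_eq_zero.mp h2).resolve_left (pow_ne_zero _ hX2)
    obtain ⟨a, b, hab⟩ := hco
    have := congrArg (Polynomial.eval (X.1 / X.2)) hab
    simp [e1, e2] at this

lemma bK_iter_ne (d : ℕ) (p q : K[X]) (hp : p.natDegree ≤ d) (hq : q.natDegree = d)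
    (hd : 1 ≤ d) (hco : IsCoprime p q) (X : K × K) (hX : X ≠ 0) (m : ℕ) :
    (bK d p q)^[m] X ≠ 0 := by
  induction m with
  | zero => exact hX
  | succ m ih =>
    rw [Function.iterate_succ_apply']
    exact bK_ne d p q hp hq hd hco _ ih

lemma vo_zero {ord : K → ℤ} (h : ∀ x : K, x ≠ 0 → ord x = 0) {X : K × K} (hX : X ≠ 0) :
    vo ord X = 0 := by
  unfold vo
  by_cases h1 : X.1 = 0
  · rw [if_pos h1]
    exact h _ fun h2 => hX (Prod.ext h1 h2)
  · rw [if_neg h1]
    by_cases h2 : X.2 = 0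
    · rw [if_pos h2]
      exact h _ h1
    · rw [if_neg h2, h _ h1, h _ h2, min_self]

variable {Ω : Type*} [NormedField Ω]

lemma vm_ne (ι : K →+* Ω) {X : K × K} (hX : X ≠ 0) : vm ι X ≠ 0 := by
  intro h
  apply hX
  have h1 : ι X.1 = 0 := congrArg Prod.fst h
  have h2 : ι X.2 = 0 := congrArg Prod.snd h
  exact Prod.ext ((map_eq_zero ι).mp h1) ((map_eq_zero ι).mp h2)

lemma log_vm (ι : K →+* Ω) (ord : K → ℤ)
    (hι : ∀ x : K, x ≠ 0 → ‖ι x‖ = Real.exp (-(ord x : ℝ))) {X : K × K} (hX : X ≠ 0) :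
    Real.log ‖vm ι X‖ = -(vo ord X : ℝ) := by
  unfold vo vm
  rw [Prod.norm_def]
  by_cases h1 : X.1 = 0
  · have h2 : X.2 ≠ 0 := fun h2 => hX (Prod.ext h1 h2)
    rw [if_pos h1]
    simp only [h1, map_zero, norm_zero]
    rw [max_eq_right (norm_nonneg _), hι _ h2, Real.log_exp]
  · rw [if_neg h1]
    by_cases h2 : X.2 = 0
    · rw [if_pos h2]
      simp only [h2, map_zero, norm_zero]
      rw [max_eq_left (norm_nonneg _), hι _ h1, Real.log_exp]
    · rw [if_neg h2]
      simp only [hι _ h1, hι _ h2]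
      rw [← Real.exp_monotone.map_max, Real.log_exp]
      push_cast
      rw [max_neg_neg]

lemma iter_vm (ι : K →+* Ω) (d : ℕ) (p q : K[X]) (m : ℕ) (X : K × K) :
    (bF d (p.map ι) (q.map ι))^[m] (vm ι X) = vm ι ((bK d p q)^[m] X) := by
  induction m with
  | zero => rfl
  | succ m ih =>
    rw [Function.iterate_succ_apply', Function.iterate_succ_apply', ih]
    unfold bF
    rw [hev_map, hev_map]
    rfl

lemma crit_map [CharZero K] (ι : K →+* Ω) {d : ℕ} {p q : K[X]} {c : Fin (2 * d - 2) → K × K}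
    (h : Crit d p q c) : Crit d (p.map ι) (q.map ι) fun i => vm ι (c i) := by
  obtain ⟨h1, h2⟩ := h
  refine ⟨fun i => vm_ne ι (h1 i), fun x => ?_⟩
  have h3 : derivative p * q - p * derivative q = ∏ i, (X * C (c i).2 - C (c i).1) := by
    apply Polynomial.funext
    intro y
    rw [h2, Polynomial.eval_prod]
    refine Finset.prod_congr rfl fun i _ => ?_
    unfold wd
    simp only [Polynomial.eval_sub, Polynomial.eval_mul, Polynomial.eval_X, Polynomial.eval_C]
    ring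
  have h4 := congrArg (fun r => (r.map ι).eval x) h3
  simp only [Polynomial.map_sub, Polynomial.map_mul, Polynomial.derivative_map,
    Polynomial.map_prod, Polynomial.map_C, Polynomial.map_X] at h4 ⊢
  rw [h4, Polynomial.eval_prod]
  refine Finset.prod_congr rfl fun i _ => ?_
  unfold wd vm
  simp only [Polynomial.eval_sub, Polynomial.eval_mul, Polynomial.eval_X, Polynomial.eval_C]
  ring

end vec

theorem t_LOC2 (_ : S_GRN2.{u}) (hLUP : S_LUP.{u}) (hCOL : S_COL2.{u}) (hJAC : S_JAC.{u})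
    (hLDX : S_LDX.{u, v, w}) : S_LOC2.{u, v, w} := by
  intro d hd δ' δ hδ' hδ J₀
  have hdR : (2 : ℝ) ≤ d := by exact_mod_cast hd
  obtain ⟨J, ε, c, N₀, hJ, hε, hcol⟩ := hCOL d hd δ' δ hδ' hδ J₀
  refine ⟨J, ε, c + 1, N₀, hJ, hε, ?_⟩
  intro k K _ _ _ _ _ Q v p q hp hq hco Cr hCr P hP a ha ρ hρ M hM hMp hMq
  classical
  have : CharZero K := charZero_of_injective_algebraMap (algebraMap k K).injective
  obtain ⟨L, hL1, hL2⟩ := hLDX k K Q v d hd p q hp hq hco P hP a ha ρ hρ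
  have hLR := hL1 M hM hMp hMq
  have hR0 : (0 : ℝ) ≤ L.R := Nat.cast_nonneg _
  have hJR : (0 : ℝ) ≤ J := Nat.cast_nonneg _
  by_cases hπ : ∃ π : K, π ≠ 0 ∧ Q.ord v π ≠ 0
  · obtain ⟨Ω, _, _, _, ι, S₀, A, B, h, s, hs, X, hι, hnat, hF₀, hd₀, hRes₀, hgs, hTR, hX⟩ :=
      hL2 hπ
    have hpΩ : (p.map ι).natDegree ≤ d := Polynomial.natDegree_map_le.trans hp
    have hqΩ : (q.map ι).natDegree = d := by
      rw [Polynomial.natDegree_map_eq_of_injective ι.injective, hq]
    have hcoΩ : IsCoprime (p.map ι) (q.map ι) := by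
      obtain ⟨u, w, h⟩ := hco
      refine ⟨u.map ι, w.map ι, ?_⟩
      rw [← Polynomial.map_mul, ← Polynomial.map_mul, ← Polynomial.map_add, h, Polynomial.map_one]
    obtain ⟨D, hD⟩ := hJAC Ω hnat d hd (p.map ι) (q.map ι) hpΩ hqΩ hcoΩ S₀ hF₀ hd₀
      (fun i => vm ι (Cr i)) (crit_map ι hCr) A B h s hs hgs
    have hTd : (S₀.conj A B h s hs).d = d := hd₀
    have hup := hLUP Ω hnat (S₀.conj A B h s hs) hgs (by rw [hTd]; exact hd) D
    rw [hTd, hTR] at hup
    -- the coefficients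
    have hcoef : ∀ r : K[X], (∀ i, r.coeff i ≠ 0 → -M ≤ Q.ord v (r.coeff i)) →
        ∀ i, ‖(r.map ι).coeff i‖ ≤ Real.exp M := by
      intro r hr i
      rw [Polynomial.coeff_map]
      by_cases h0 : r.coeff i = 0
      · rw [h0, map_zero, norm_zero]
        exact (Real.exp_pos _).le
      · rw [hι _ h0, Real.exp_le_exp]
        have := hr i h0
        linarith
    have hFle : ∀ Y : Ω × Ω, ‖S₀.F Y‖ ≤ Real.exp M * ‖Y‖ ^ d := by
      intro Y
      rw [hF₀]
      exact norm_bF_le d _ _ (hcoef p hMp) (hcoef q hMq) Y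
    have hgsM : Real.log S₀.gs ≤ M := by
      obtain ⟨Bf, -⟩ := exists_fam hnat
      obtain ⟨E, hE⟩ := HS.gs_attained (S := S₀) Bf
      obtain ⟨i, hi⟩ := Infinite.exists_notMem_finset E
      rw [Real.log_le_iff_le_exp HS.gs_pos, ← hE i hi]
      have := hFle (Bf.b i)
      rwa [Bf.unit, one_pow, mul_one] at this
    have hK : ∀ Y : Ω × Ω, Y ≠ 0 → |Real.log ‖S₀.F Y‖ - d * Real.log ‖Y‖| ≤
        (Q.ord v (resultant q p d d) : ℝ) + (2 * d + 1) * M := by
      intro Y hY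
      have hY' : 0 < ‖Y‖ := norm_pos_iff.mpr hY
      have hFY : 0 < ‖S₀.F Y‖ := norm_pos_iff.mpr (S₀.nz Y hY)
      have h1 := norm_F_lower hnat S₀ Y hY
      rw [hd₀, hRes₀] at h1
      have h2 := Real.log_le_log hFY (hFle Y)
      rw [Real.log_mul (Real.exp_pos _).ne' (by positivity), Real.log_exp, Real.log_pow] at h2
      have h3 : (2 * (d : ℝ) - 1) * Real.log S₀.gs ≤ (2 * (d : ℝ) - 1) * M :=
        mul_le_mul_of_nonneg_left hgsM (by linarith)
      rw [abs_le]
      constructor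
      · nlinarith
      · nlinarith
    refine ⟨L, J * (D.L - δ' * L.R) - 20 * L.R, hLR, ?_, fun m => ?_, fun hR1 hN => ?_⟩
    · have h1 : (J : ℝ) * (D.L - δ' * L.R) ≤ J * (4 * d * L.R) := by
        apply mul_le_mul_of_nonneg_left _ hJR
        have : 0 ≤ δ' * L.R := by positivity
        linarith
      nlinarith
    · have h1 := hD _ hK m
      have h2 : ∑ i, Real.log ‖S₀.F^[m] (vm ι (Cr i))‖ =
          ∑ i, -(vo (Q.ord v) ((bK d p q)^[m] (Cr i)) : ℝ) := by
        refine Finset.sum_congr rfl fun i _ => ?_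
        rw [hF₀, iter_vm]
        exact log_vm ι (Q.ord v) hι (bK_iter_ne d p q hp hq (by omega) hco _ (hCr.1 i) m)
      rw [h2, hRes₀] at h1
      have h3 := mul_le_mul_of_nonneg_left (sub_le_sub_right h1 (δ' * L.R)) hJR
      linarith
    · have hRR : (1 : ℝ) ≤ L.R := by exact_mod_cast hR1
      have hcardι : Fintype.card {x // x ∈ P} = P.card := Fintype.card_coe P
      have hmain := hcol Ω hnat (S₀.conj A B h s hs) hgs hTd (by rw [hTR]; linarith) D {x // x ∈ P}
        (fun i => X i.1) (by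
        intro i j hij
        exact (hX i.1 i.2 j.1 j.2 (fun h => hij (Subtype.ext h))).1) (by rw [hcardι]; exact hN)
      rw [hcardι, hTR] at hmain
      rcases hmain with hmain | hmain
      · left
        refine hmain.trans (le_of_eq ?_)
        rw [← Finset.sum_coe_sort P]
        apply Finset.sum_congr rfl
        intro i _
        rw [← Finset.sum_coe_sort P]
        apply Finset.sum_congr rfl
        intro j _
        by_cases h : i = j
        · rw [if_pos h, if_pos (congrArg Subtype.val h)]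
        · rw [if_neg h, if_neg (fun h' => h (Subtype.ext h')),
            (hX _ i.2 _ j.2 (fun h' => h (Subtype.ext h'))).2]
      · right
        obtain ⟨χ, Bd, hBd, hχ⟩ := hmain
        refine ⟨fun z => if h : z ∈ P then (χ ⟨z, h⟩).castSucc else 0, Bd.image Subtype.val,
          ?_, ?_, ?_⟩
        · intro z hz
          rw [Finset.mem_image] at hz
          obtain ⟨i, _, rfl⟩ := hz
          exact i.2
        · refine le_trans ?_ hBd
          exact_mod_cast Finset.card_image_le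
        · intro z hz hzB z' hz' hzB' hne hc
          beta_reduce at hc
          rw [dif_pos hz, dif_pos hz'] at hc
          have h1 := hχ ⟨z, hz⟩ (fun h => hzB (Finset.mem_image.mpr ⟨_, h, rfl⟩)) ⟨z', hz'⟩
            (fun h => hzB' (Finset.mem_image.mpr ⟨_, h, rfl⟩))
            (fun h => hne (congrArg Subtype.val h)) (Fin.castSucc_injective _ hc)
          rwa [(hX z hz z' hz' hne).2] at h1
  · push Not at hπ
    have hres := res_ne d p q hp hq (by omega) hco
    have hρ0 : ρ = 0 := by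
      rw [hρ, hπ _ hres]
      simp
    have ha0 : ∀ z ∈ P, a z = 0 := by
      apply stable_zero d hd P (fun z => p.eval z / q.eval z) (fun z hz => (hP z hz).2) a
      intro z hz
      rw [ha z hz, hπ _ (hP z hz).1]
      simp
    refine ⟨L, 0, hLR, by positivity, fun m => ?_, fun _ _ => Or.inr ⟨fun _ => 0, ∅,
      Finset.empty_subset _, by simp; positivity, fun z hz _ z' hz' _ hne _ => ?_⟩⟩
    · have h1 : ∑ i, -(vo (Q.ord v) ((bK d p q)^[m] (Cr i)) : ℝ) = 0 := by
        refine Finset.sum_eq_zero fun i _ => ?_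
        rw [vo_zero hπ (bK_iter_ne d p q hp hq (by omega) hco _ (hCr.1 i) m)]
        simp
      rw [h1, hπ _ hres]
      simp only [Int.cast_zero, zero_div, mul_zero, zero_add, zero_sub]
      have h2 : 0 ≤ (2 * (d : ℝ) - 2) * ((2 * d + 1) * M) / (d : ℝ) ^ m := by
        apply div_nonneg _ (by positivity)
        apply mul_nonneg (by linarith) (by positivity)
      have h3 : 0 ≤ δ' * L.R := by positivity
      have h4 : (J : ℝ) * (-((2 * (d : ℝ) - 2) * ((2 * d + 1) * M) / (d : ℝ) ^ m) - δ' * L.R) ≤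
          0 := mul_nonpos_of_nonneg_of_nonpos hJR (by linarith)
      linarith
    · unfold GG
      rw [hπ _ (sub_ne_zero.mpr hne), ha0 z hz, ha0 z' hz', hρ0]
      simp

end Pool.Agent.Y86.CH
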