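import Pool.Agent.Y481.Far

/-!
# The near part of the path, deformed, and mixed iterated integrals
-/

set_option autoImplicit false

namespace Pool.Agent.Y86.CH

open Finset Filter Topology Metric MeasureTheory
open Pool.Agent.W711.HT
open Pool.Agent.Y481 (itI itN itG LI LN Sep LI_lin LN_lin LN_sub itG_sep itI_eq)
open scoped Real

/-- the exponent of a twist region -/
noncomputable def qx (a : ℤ) (w : ℂ) : ℂ := Complex.I * a * w ^ 2 / (4 * π) + Complex.I * w

lemma qx_re (a : ℤ) (w : ℂ) : (qx a w).re = -(a * w.re * w.im) / (2 * π) - w.im := by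
  have e : qx a w = ((-(a * w.re * w.im) / (2 * π) - w.im : ℝ) : ℂ) +
      ((a * (w.re ^ 2 - w.im ^ 2) / (4 * π) + w.re : ℝ) : ℂ) * Complex.I := by
    have hpi : (π : ℂ) ≠ 0 := by exact_mod_cast Real.pi_ne_zero
    unfold qx
    conv_lhs => rw [← Complex.re_add_im w]
    push_cast
    field_simp
    ring_nf
    simp only [Complex.I_sq, Complex.I_pow_three]
    ring
  rw [e]
  simp only [Complex.add_re, Complex.mul_re, Complex.ofReal_re, Complex.ofReal_im,
    Complex.I_re, Complex.I_im, mul_zero, zero_mul, sub_zero, add_zero]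

lemma norm_kr_up {N : ℕ} (hN : 1 ≤ N) {w : ℂ} (h1 : 1 / (N : ℝ) ≤ w.im) (h2 : w.im ≤ 1) :
    ‖kr N w‖ ≤ 8 * Real.exp 1 * Real.exp (-(N * w.im)) := by
  have hN0 : (0:ℝ) < N := by exact_mod_cast hN
  have hw0 : 0 < w.im := lt_of_lt_of_le (by positivity) h1
  have hw : w = (w.re : ℂ) + w.im * Complex.I := (Complex.re_add_im w).symm
  have e1 : ‖kr N w‖ = 2 * ‖Complex.sin w‖ /
      (4 * (Real.cos (N * (w.re + π) / 2) ^ 2 + Real.sinh (N * w.im / 2) ^ 2)) := by
    conv_lhs => rw [hw]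
    rw [kr, cos_arg, norm_div, norm_mul, norm_mul, norm_pow, sq_norm_cos_add, ← hw]
    simp
  have hs : ‖Complex.sin w‖ ≤ Real.exp 1 := by
    rw [hw]
    exact norm_sin_le _ _ (by rw [abs_of_pos hw0]; exact h2)
  set u : ℝ := N * w.im / 2 with hu
  have hu1 : 1 ≤ 2 * u := by
    have : (1 : ℝ) ≤ N * w.im := by
      have := mul_le_mul_of_nonneg_left h1 hN0.le
      rwa [mul_one_div_cancel hN0.ne'] at this
    rw [hu]; linarith
  have hsinh : Real.exp u / 4 ≤ Real.sinh u := by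
    rw [Real.sinh_eq]
    have k1 : Real.exp (-u) * Real.exp u = 1 := by rw [← Real.exp_add]; simp
    have k2 : 2 ≤ Real.exp u * Real.exp u := by
      rw [← Real.exp_add]
      have : (1:ℝ) + 1 ≤ Real.exp 1 := Real.add_one_le_exp 1
      have k3 : Real.exp 1 ≤ Real.exp (u + u) := Real.exp_le_exp.2 (by linarith)
      linarith
    have k4 : Real.exp (-u) * 2 ≤ Real.exp u := by
      have k5 := mul_le_mul_of_nonneg_left k2 (Real.exp_pos (-u)).le
      rw [← mul_assoc, k1, one_mul] at k5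
      exact k5
    linarith
  have hsq : Real.exp (N * w.im) / 16 ≤ Real.sinh u ^ 2 := by
    have k1 : Real.exp (N * w.im) = Real.exp u ^ 2 := by
      rw [sq, ← Real.exp_add]
      congr 1
      rw [hu]; ring
    rw [k1]
    have := pow_le_pow_left₀ (by positivity) hsinh 2
    calc Real.exp u ^ 2 / 16 = (Real.exp u / 4) ^ 2 := by ring
      _ ≤ _ := this
  rw [e1, div_le_iff₀ (by positivity)]
  have k3 : Real.exp (-(N * w.im)) * Real.exp (N * w.im) = 1 := by rw [← Real.exp_add]; simp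
  have k4 : Real.exp 1 * Real.exp (-(N * w.im)) * (Real.exp (N * w.im) / 16) ≤
      Real.exp 1 * Real.exp (-(N * w.im)) *
        (Real.cos (N * (w.re + π) / 2) ^ 2 + Real.sinh u ^ 2) := by
    refine mul_le_mul_of_nonneg_left ?_ (by positivity)
    nlinarith [sq_nonneg (Real.cos (N * (w.re + π) / 2))]
  have k5 : Real.exp 1 * Real.exp (-(N * w.im)) * (Real.exp (N * w.im) / 16) = Real.exp 1 / 16 := by
    calc _ = Real.exp 1 * (Real.exp (-(N * w.im)) * Real.exp (N * w.im)) / 16 := by ring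
      _ = _ := by rw [k3, mul_one]
  rw [k5] at k4
  nlinarith

lemma norm_Ea_eq (a : ℤ) (N : ℕ) (w : ℂ) :
    ‖Ea a N w‖ = Real.exp (N * (-(a * w.re * w.im) / (2 * π))) := by
  have hpi : (π : ℂ) ≠ 0 := by exact_mod_cast Real.pi_ne_zero
  have e : Complex.I * a * N * w ^ 2 / (4 * π) =
      ((N * (-(a * w.re * w.im) / (2 * π)) : ℝ) : ℂ) +
        ((a * N * (w.re ^ 2 - w.im ^ 2) / (4 * π) : ℝ) : ℂ) * Complex.I := by
    conv_lhs => rw [← Complex.re_add_im w]
    push_cast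
    field_simp
    ring_nf
    simp only [Complex.I_sq, Complex.I_pow_three]
    ring
  rw [Ea, e, Complex.norm_exp]
  simp only [Complex.add_re, Complex.mul_re, Complex.ofReal_re, Complex.ofReal_im,
    Complex.I_re, Complex.I_im, mul_zero, zero_mul, sub_zero, add_zero]

/-- the integrand on the upper part -/
lemma norm_up (a : ℤ) {N : ℕ} (hN : 1 ≤ N) {w : ℂ} (h1 : 1 / (N : ℝ) ≤ w.im) (h2 : w.im ≤ 1)
    {f : ℂ → ℂ} {B : ℝ} (hf : Real.exp (N * (qx a w).re) * ‖f w‖ ≤ B) :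
    ‖Ea a N w * f w * kr N w‖ ≤ 8 * Real.exp 1 * B := by
  have hk := norm_kr_up hN h1 h2
  rw [norm_mul, norm_mul, norm_Ea_eq]
  have e : Real.exp (N * (qx a w).re) =
      Real.exp (N * (-(a * w.re * w.im) / (2 * π))) * Real.exp (-(N * w.im)) := by
    rw [← Real.exp_add, qx_re]
    congr 1
    ring
  rw [e] at hf
  calc Real.exp (N * (-(a * w.re * w.im) / (2 * π))) * ‖f w‖ * ‖kr N w‖ ≤
      Real.exp (N * (-(a * w.re * w.im) / (2 * π))) * ‖f w‖ *
        (8 * Real.exp 1 * Real.exp (-(N * w.im))) := by gcongr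
    _ = 8 * Real.exp 1 * (Real.exp (N * (-(a * w.re * w.im) / (2 * π))) *
        Real.exp (-(N * w.im)) * ‖f w‖) := by ring
    _ ≤ 8 * Real.exp 1 * B := by gcongr

/-- the deformed near part of the path -/
def Pth (ρ h : ℝ) : Set ℂ := {w | |w.re| ≤ ρ ∧ 0 ≤ w.im ∧ w.im ≤ h ∧ (w.im = h ∨ |w.re| = ρ)}

lemma cos_arg_ne {N : ℕ} (hN : 1 ≤ N) {w : ℂ} (hw : 0 < w.im) :
    Complex.cos (N * (w + π) / 2) ≠ 0 := by
  have hN0 : (0:ℝ) < N := by exact_mod_cast hN
  apply Pool.Agent.W398.HT.cos_ne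
  left
  have : ((N : ℂ) * (w + π) / 2) =
      ((N * (w.re + π) / 2 : ℝ) : ℂ) + ((N * w.im / 2 : ℝ) : ℂ) * Complex.I := by
    conv_lhs => rw [← Complex.re_add_im w]
    push_cast
    ring
  rw [this]
  simp only [Complex.add_im, Complex.mul_im, Complex.ofReal_re, Complex.ofReal_im,
    Complex.I_re, Complex.I_im, mul_zero, add_zero, mul_one, zero_add, ne_eq]
  positivity

lemma diff_up (a : ℤ) {N : ℕ} (hN : 1 ≤ N) {f : ℂ → ℂ} (hf : Differentiable ℂ f) {w : ℂ}
    (hw : 0 < w.im) : DifferentiableAt ℂ (fun w => Ea a N w * f w * kr N w) w := by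
  refine (DifferentiableAt.mul ?_ (hf w)).mul ?_
  · unfold Ea
    fun_prop
  · unfold kr
    refine DifferentiableAt.div (by fun_prop) (by fun_prop) ?_
    exact mul_ne_zero (by norm_num) (pow_ne_zero _ (cos_arg_ne hN hw))

/-- bound of the near part by the deformed path -/
theorem LN_bound (ρ : ℝ) (a : ℤ) {N : ℕ} (hN : 1 ≤ N) {h : ℝ} (hρ : 0 < ρ) (h1 : 1 / (N : ℝ) ≤ h)
    (h2 : h ≤ 1) {f : ℂ → ℂ} (hf : Differentiable ℂ f) {B : ℝ}
    (hB : ∀ w ∈ Pth ρ h, Real.exp (N * (qx a w).re) * ‖f w‖ ≤ B) :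
    ‖LN ρ a N f‖ ≤ 8 * Real.exp 1 * (2 * ρ + 2) * B := by
  have hN0 : (0:ℝ) < N := by exact_mod_cast hN
  have hh0 : (0:ℝ) < 1 / N := by positivity
  have hB0 : 0 ≤ B := by
    refine le_trans (by positivity) (hB (ρ + h * Complex.I) ?_)
    have : ((ρ : ℂ) + h * Complex.I).re = ρ := by simp
    have i : ((ρ : ℂ) + h * Complex.I).im = h := by simp
    refine ⟨?_, ?_, ?_, Or.inl i⟩
    · rw [this, abs_of_pos hρ]
    · rw [i]; linarith
    · rw [i]
  set g : ℂ → ℂ := fun w => Ea a N w * f w * kr N w with hg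
  have hre : ∀ x y : ℝ, ((x : ℂ) + y * Complex.I).re = x := fun x y => by simp
  have him : ∀ x y : ℝ, ((x : ℂ) + y * Complex.I).im = y := fun x y => by simp
  have hd : DifferentiableOn ℂ g (Set.uIcc (-ρ) ρ ×ℂ Set.uIcc (1 / (N : ℝ)) h) := by
    intro w hw
    refine (diff_up a hN hf ?_).differentiableWithinAt
    have := hw.2
    rw [Set.mem_preimage, Set.uIcc_of_le h1] at this
    linarith [this.1]
  have hrect := Complex.integral_boundary_rect_eq_zero_of_differentiableOn g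
    ((-ρ : ℝ) + (1 / N : ℝ) * Complex.I) ((ρ : ℝ) + (h : ℝ) * Complex.I)
    (by simpa only [hre, him] using hd)
  simp only [hre, him] at hrect
  have e : LN ρ a N f = (∫ x in (-ρ)..ρ, g (x + (h : ℝ) * Complex.I)) -
      Complex.I * (∫ y in (1 / (N : ℝ))..h, g ((ρ : ℝ) + y * Complex.I)) +
      Complex.I * (∫ y in (1 / (N : ℝ))..h, g (((-ρ : ℝ) : ℂ) + y * Complex.I)) := by
    have k : LN ρ a N f = ∫ x in (-ρ)..ρ, g (x + (1 / N : ℝ) * Complex.I) := rfl
    rw [k]
    simp only [smul_eq_mul] at hrect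
    linear_combination hrect
  have i1 : ‖∫ x in (-ρ)..ρ, g (x + (h : ℝ) * Complex.I)‖ ≤ 8 * Real.exp 1 * B * |ρ - -ρ| := by
    refine intervalIntegral.norm_integral_le_of_norm_le_const fun x hx => ?_
    rw [Set.uIoc_of_le (by linarith)] at hx
    refine norm_up a hN (by rw [him]; exact h1) (by rw [him]; exact h2) (hB _ ?_)
    refine ⟨?_, ?_, ?_, Or.inl (him x h)⟩
    · rw [hre]; exact abs_le.2 ⟨hx.1.le, hx.2⟩
    · rw [him]; linarith
    · rw [him]
  have iv : ∀ σ : ℝ, |σ| = ρ → ‖∫ y in (1 / (N : ℝ))..h, g ((σ : ℂ) + y * Complex.I)‖ ≤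
      8 * Real.exp 1 * B * |h - 1 / N| := by
    intro σ hσ
    refine intervalIntegral.norm_integral_le_of_norm_le_const fun y hy => ?_
    rw [Set.uIoc_of_le h1] at hy
    refine norm_up a hN (by rw [him]; exact hy.1.le) (by rw [him]; linarith [hy.2]) (hB _ ?_)
    refine ⟨?_, ?_, ?_, Or.inr ?_⟩
    · rw [hre, hσ]
    · rw [him]; linarith [hy.1]
    · rw [him]; exact hy.2
    · rw [hre, hσ]
  have i2 := iv ρ (abs_of_pos hρ)
  have i3 := iv (-ρ) (by rw [abs_neg, abs_of_pos hρ])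
  have hI : ∀ z : ℂ, ‖Complex.I * z‖ = ‖z‖ := by intro z; rw [norm_mul, Complex.norm_I, one_mul]
  rw [e]
  refine (norm_add_le _ _).trans ?_
  have t1 := norm_sub_le (∫ x in (-ρ)..ρ, g (x + (h : ℝ) * Complex.I))
    (Complex.I * (∫ y in (1 / (N : ℝ))..h, g ((ρ : ℝ) + y * Complex.I)))
  rw [hI] at t1 ⊢
  have a1 : |ρ - -ρ| = 2 * ρ := by rw [abs_of_pos (by linarith)]; ring
  have a2 : |h - 1 / N| ≤ 1 := by rw [abs_of_nonneg (by linarith)]; linarith
  rw [a1] at i1
  have e0 : 0 ≤ 8 * Real.exp 1 * B := by positivity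
  have i2' := i2.trans (mul_le_mul_of_nonneg_left a2 e0)
  have i3' := i3.trans (mul_le_mul_of_nonneg_left a2 e0)
  nlinarith

/-- a variable is on the far part, or on the deformed near part -/
def Ok (ρ : ℝ) (h : ℕ → ℝ) (N : ℕ) (s : ℕ → Bool) (ψ : ℕ → ℂ) (i : ℕ) : Prop :=
  if s i = true then ρ ≤ |(ψ i).re| ∧ |(ψ i).re| ≤ π ∧ |(ψ i).im| ≤ 1 / N else ψ i ∈ Pth ρ (h i)

/-- the weight of a variable -/
noncomputable def wg (a : ℕ → ℤ) (N : ℕ) (s : ℕ → Bool) (ψ : ℕ → ℂ) (i : ℕ) : ℝ :=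
  if s i = true then 1 else Real.exp (N * (qx (a i) (ψ i)).re)

lemma wg_pos (a : ℕ → ℤ) (N : ℕ) (s : ℕ → Bool) (ψ : ℕ → ℂ) (i : ℕ) : 0 < wg a N s ψ i := by
  unfold wg
  split_ifs
  · exact one_pos
  · exact Real.exp_pos _

lemma wg_update (a : ℕ → ℤ) (N : ℕ) (s : ℕ → Bool) (ψ : ℕ → ℂ) (j : ℕ) (b : Bool) (w : ℂ) {i : ℕ}
    (hi : i ≠ j) : wg a N (Function.update s j b) (Function.update ψ j w) i = wg a N s ψ i := by
  unfold wg
  rw [Function.update_of_ne hi, Function.update_of_ne hi]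

lemma prod_wg_update (a : ℕ → ℤ) (N : ℕ) (s : ℕ → Bool) (ψ : ℕ → ℂ) (j n : ℕ) (hj : j < n)
    (b : Bool) (w : ℂ) :
    ∏ i ∈ Ico j n, wg a N (Function.update s j b) (Function.update ψ j w) i =
      (if b = true then 1 else Real.exp (N * (qx (a j) w).re)) *
        ∏ i ∈ Ico (j + 1) n, wg a N s ψ i := by
  rw [← prod_Ico_consecutive _ (Nat.le_succ j) hj]
  congr 1
  · rw [Nat.Ico_succ_singleton, prod_singleton]
    simp [wg]
  · refine prod_congr rfl fun i hi => wg_update a N s ψ j b w ?_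
    have := (mem_Ico.1 hi).1
    omega

theorem mixed (n : ℕ) (a : ℕ → ℤ) (ρ : ℝ) (h : ℕ → ℝ) (hρ : 0 < ρ) (hρ1 : ρ ≤ π)
    (hh : ∀ i < n, 0 < h i ∧ h i ≤ 1) (j : ℕ) (hj : j ≤ n) : ∃ C : ℝ, 0 < C ∧
    ∀ᶠ N : ℕ in atTop, ∀ (f : (ℕ → ℂ) → ℂ) (B : ℝ), 0 ≤ B → Sep n f →
      (∀ (s : ℕ → Bool) (ψ : ℕ → ℂ), (∀ i < n, Ok ρ h N s ψ i) → (∃ i < n, s i = true) →
        (∏ i ∈ Ico 0 n, wg a N s ψ i) * ‖f ψ‖ ≤ B) →
      ∀ (s : ℕ → Bool) (ψ : ℕ → ℂ), (∀ i, j ≤ i → i < n → Ok ρ h N s ψ i) →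
        ((∃ i, j ≤ i ∧ i < n ∧ s i = true) →
          (∏ i ∈ Ico j n, wg a N s ψ i) * ‖itI a N j f ψ‖ ≤ C * B) ∧
        (∏ i ∈ Ico j n, wg a N s ψ i) * ‖itI a N j f ψ - itN (fun _ => ρ) a N j f ψ‖ ≤ C * B := by
  induction j with
  | zero =>
    refine ⟨1, one_pos, ?_⟩
    filter_upwards with N f B hB hf hb s ψ hψ
    refine ⟨?_, ?_⟩
    · rintro ⟨i, _, hi, hi2⟩
      rw [one_mul]
      exact hb s ψ (fun i hi => hψ i (Nat.zero_le _) hi) ⟨i, hi, hi2⟩
    · simp only [itI, itN, itG, sub_self, norm_zero]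
      linarith
  | succ j ih =>
    obtain ⟨C, hC, ih⟩ := ih (by omega)
    obtain ⟨D, hD, hU⟩ := upb (a j)
    have hjn : j < n := by omega
    set E : ℝ := 8 * Real.exp 1 * (2 * ρ + 2) with hE
    have hE0 : 0 < E := by positivity
    refine ⟨(D + E) * C, by positivity, ?_⟩
    have hNh : ∀ᶠ N : ℕ in atTop, 1 / (N : ℝ) ≤ h j := by
      have := tendsto_one_div_atTop_nhds_zero_nat (𝕜 := ℝ)
      exact this.eventually (eventually_le_nhds (hh j hjn).1)
    filter_upwards [ih, hU ρ hρ hρ1, eventually_ge_atTop 1, hNh] with N ih hU hN hNh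
      f B hB hf hb s ψ hψ
    set FI : ℂ → ℂ := fun w => itI a N j f (Function.update ψ j w) with hFI
    set FN : ℂ → ℂ := fun w => itN (fun _ => ρ) a N j f (Function.update ψ j w) with hFN
    have hFId : Differentiable ℂ FI := by
      rw [hFI, itI_eq]
      exact (itG_sep (fun j => LI_lin (a j) hN) hf (by omega)).diff ψ j
    have hFNd : Differentiable ℂ FN :=
      (itG_sep (fun j => LN_lin ρ (a j) hN) hf (by omega)).diff ψ j
    have e1 : itI a N (j + 1) f ψ = LI (a j) N FI := rfl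
    have e2 : itN (fun _ => ρ) a N (j + 1) f ψ = LN ρ (a j) N FN := rfl
    set c : ℝ := ∏ i ∈ Ico (j + 1) n, wg a N s ψ i with hc
    have hc0 : 0 < c := prod_pos fun i _ => wg_pos a N s ψ i
    have hok : ∀ (b : Bool) (w : ℂ), Ok ρ h N (Function.update s j b) (Function.update ψ j w) j →
        ∀ i, j ≤ i → i < n → Ok ρ h N (Function.update s j b) (Function.update ψ j w) i := by
      intro b w hw i hi1 hi2
      rcases eq_or_lt_of_le hi1 with hi | hi
      · rw [← hi]; exact hw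
      · have := hψ i hi hi2
        unfold Ok at this ⊢
        rwa [Function.update_of_ne (by omega), Function.update_of_ne (by omega)]
    have hCB : 0 ≤ C * B := by positivity
    -- the variable number `j` on the far part
    have hfar : ∀ x y : ℝ, ρ ≤ |x| → |x| ≤ π → |y| ≤ 1 / N →
        ‖FI (x + y * Complex.I)‖ ≤ C * B / c := by
      intro x y hx0 hx hy
      have hre : ((x : ℂ) + y * Complex.I).re = x := by simp
      have him : ((x : ℂ) + y * Complex.I).im = y := by simp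
      have := (ih f B hB hf hb (Function.update s j true) (Function.update ψ j (x + y * Complex.I))
        (hok true _ (by simp only [Ok, Function.update_self, if_true, hre, him]; exact ⟨hx0, hx, hy⟩))).1
          ⟨j, le_rfl, hjn, by simp⟩
      rw [prod_wg_update a N s ψ j n hjn, if_pos rfl, one_mul] at this
      rw [le_div_iff₀ hc0, mul_comm]
      exact this
    -- the variable number `j` on the near part
    have hokn : ∀ w ∈ Pth ρ (h j), Ok ρ h N (Function.update s j false) (Function.update ψ j w) j := by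
      intro w hw
      simp only [Ok, Function.update_self, Bool.false_eq_true, if_false]
      exact hw
    have hLF : ‖LI (a j) N FI - LN ρ (a j) N FI‖ ≤ D * (C * B / c) :=
      (hU FI (C * B / c) hFId.continuous).1 hfar
    have hdiff : ‖LN ρ (a j) N FI - LN ρ (a j) N FN‖ ≤ E * (C * B / c) := by
      rw [LN_sub _ _ hN hFId hFNd]
      refine LN_bound ρ (a j) hN hρ hNh (hh j hjn).2 (hFId.sub hFNd) fun w hw => ?_
      have := (ih f B hB hf hb (Function.update s j false) (Function.update ψ j w)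
        (hok false _ (hokn w hw))).2
      rw [prod_wg_update a N s ψ j n hjn, if_neg (by simp)] at this
      rw [le_div_iff₀ hc0]
      calc _ = Real.exp (N * (qx (a j) w).re) * c * ‖FI w - FN w‖ := by
            rw [Pi.sub_apply]; ring
        _ ≤ _ := this
    refine ⟨?_, ?_⟩
    · rintro ⟨i, hi1, hi2, hi3⟩
      have hLN : ‖LN ρ (a j) N FI‖ ≤ E * (C * B / c) := by
        refine LN_bound ρ (a j) hN hρ hNh (hh j hjn).2 hFId fun w hw => ?_
        have := (ih f B hB hf hb (Function.update s j false) (Function.update ψ j w)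
          (hok false _ (hokn w hw))).1 ⟨i, by omega, hi2, by
            rw [Function.update_of_ne (by omega)]; exact hi3⟩
        rw [prod_wg_update a N s ψ j n hjn, if_neg (by simp)] at this
        rw [le_div_iff₀ hc0]
        calc _ = Real.exp (N * (qx (a j) w).re) * c * ‖FI w‖ := by ring
          _ ≤ _ := this
      rw [e1]
      have k : ‖LI (a j) N FI‖ ≤ (D + E) * (C * B / c) := by
        have k1 := norm_add_le (LI (a j) N FI - LN ρ (a j) N FI) (LN ρ (a j) N FI)
        rw [sub_add_cancel] at k1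
        linarith
      calc c * ‖LI (a j) N FI‖ ≤ c * ((D + E) * (C * B / c)) := by gcongr
        _ = (D + E) * C * B := by field_simp
    · rw [e1, e2]
      have k : ‖LI (a j) N FI - LN ρ (a j) N FN‖ ≤ (D + E) * (C * B / c) := by
        have k1 := norm_add_le (LI (a j) N FI - LN ρ (a j) N FI)
          (LN ρ (a j) N FI - LN ρ (a j) N FN)
        rw [sub_add_sub_cancel] at k1
        linarith
      calc c * ‖LI (a j) N FI - LN ρ (a j) N FN‖ ≤ c * ((D + E) * (C * B / c)) := by gcongr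
        _ = (D + E) * C * B := by field_simp

end Pool.Agent.Y86.CH
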