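import Pool.Agent.Y472.H.Defs
import Pool.Agent.Y86.CH.Wt

/-!
# The maximum of the exponent on the deformed path
-/

set_option autoImplicit false

namespace Pool.Agent.Y86.CH

open Finset Filter Topology Metric
open Pool.Agent.W711.HT
open Pool.Agent.Y472
open scoped Real

lemma convex_Rc (ρ τ : ℝ) : Convex ℝ (Rc ρ τ) := by
  intro x hx y hy s t hs ht hst
  have h1 : |(s • x + t • y).re| ≤ s * |x.re| + t * |y.re| := by
    simp only [Complex.add_re, Complex.real_smul, Complex.mul_re, Complex.ofReal_re,
      Complex.ofReal_im, zero_mul, sub_zero]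
    refine (abs_add_le _ _).trans ?_
    rw [abs_mul, abs_mul, abs_of_nonneg hs, abs_of_nonneg ht]
  have h2 : |(s • x + t • y).im| ≤ s * |x.im| + t * |y.im| := by
    simp only [Complex.add_im, Complex.real_smul, Complex.mul_im, Complex.ofReal_re,
      Complex.ofReal_im, zero_mul, add_zero]
    refine (abs_add_le _ _).trans ?_
    rw [abs_mul, abs_mul, abs_of_nonneg hs, abs_of_nonneg ht]
  have key : ∀ (p q r : ℝ), p < r → q < r → s * p + t * q < r := by
    intro p q r hp hq
    rcases eq_or_lt_of_le hs with h0 | h0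
    · rw [← h0] at hst ⊢
      have : t = 1 := by linarith
      rw [this]; linarith
    · have h1 : s * p < s * r := by gcongr
      have h2 : t * q ≤ t * r := by gcongr
      have h3 : s * r + t * r = r := by rw [← add_mul, hst, one_mul]
      linarith
  exact ⟨h1.trans_lt (key _ _ _ hx.1 hy.1), h2.trans_lt (key _ _ _ hx.2 hy.2)⟩

lemma isOpen_Rc (ρ τ : ℝ) : IsOpen (Rc ρ τ) := by
  have h1 : IsOpen {z : ℂ | |z.re| < ρ} := isOpen_lt (by fun_prop) continuous_const
  have h2 : IsOpen {z : ℂ | |z.im| < τ} := isOpen_lt (by fun_prop) continuous_const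
  exact h1.inter h2

lemma isOpen_bx (L : ℕ) (R : ℝ) : IsOpen (bx L R) := by
  have : bx L R = Set.pi Set.univ fun _ : Fin L => Rc R R := by
    ext x; simp [bx]
  rw [this]
  exact isOpen_set_pi Set.finite_univ fun _ _ => isOpen_Rc R R

lemma update_ex (L : ℕ) (x : Fin L → ℂ) (i : Fin L) (w : ℂ) :
    Function.update (ex L x) i w = ex L (Function.update x i w) := by
  funext k
  by_cases hk : k = i
  · subst hk
    simp [ex]
  · rw [Function.update_of_ne hk]
    unfold ex
    split_ifs with h
    · rw [Function.update_of_ne]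
      intro h2
      apply hk
      rw [← h2]
    · rfl

/-- derivative along a segment -/
lemma hasDerivAt_seg {L : ℕ} {R : ℝ} {F : (ℕ → ℂ) → ℂ}
    (hdep : ∀ ψ ψ' : ℕ → ℂ, (∀ i < L, ψ i = ψ' i) → F ψ = F ψ')
    (han : DifferentiableOn ℂ (fun x => F (ex L x)) (bx L R)) (y v : ℕ → ℂ) (s : ℝ)
    (hy : (fun i => y i + s * v i) ∈ Bx L R) :
    HasDerivAt (fun t : ℝ => F fun i => y i + t * v i)
      (∑ i ∈ range L, v i * deriv (fun w => F (Function.update (fun i => y i + s * v i) i w))
        (y i + s * v i)) s := by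
  set p : ℝ → Fin L → ℂ := fun t i => y i + t * v i with hp
  have hpx : p s ∈ bx L R := fun i => hy i i.2
  have hG : HasFDerivAt (fun x => F (ex L x)) (fderiv ℂ (fun x => F (ex L x)) (p s)) (p s) :=
    ((han (p s) hpx).differentiableAt ((isOpen_bx L R).mem_nhds hpx)).hasFDerivAt
  set G' := fderiv ℂ (fun x => F (ex L x)) (p s) with hG'
  have hpd : HasDerivAt p (fun i : Fin L => v i) s := by
    rw [hasDerivAt_pi]
    intro i
    have h1 : HasDerivAt (fun t : ℝ => (t : ℂ)) 1 s := Complex.ofRealCLM.hasDerivAt
    have h2 := (h1.mul_const (v i)).const_add (y i)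
    rw [one_mul] at h2
    exact h2
  have hex : ∀ ψ : ℕ → ℂ, F ψ = F (ex L fun i => ψ i) := by
    intro ψ
    refine hdep _ _ fun i hi => ?_
    simp [ex, hi]
  have hcomp : HasDerivAt (fun t : ℝ => F fun i => y i + t * v i) (G' fun i => v i) s := by
    have h1 := (hG.restrictScalars ℝ).comp_hasDerivAt s hpd
    have h2 : (fun t : ℝ => F fun i => y i + t * v i) = (fun x => F (ex L x)) ∘ p := by
      funext t
      exact hex _
    rw [h2]
    exact h1
  have hpart : ∀ i : Fin L, deriv (fun w => F (Function.update (fun i => y i + s * v i) i w))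
      (y i + s * v i) = G' (Pi.single i 1) := by
    intro i
    have h1 : (fun w => F (Function.update (fun k : ℕ => y k + s * v k) (i : ℕ) w)) =
        (fun x => F (ex L x)) ∘ (fun w => Function.update (p s) i w) := by
      funext w
      simp only [Function.comp]
      rw [← update_ex]
      refine hdep _ _ fun k hk => ?_
      by_cases hki : k = i
      · rw [hki]; simp
      · rw [Function.update_of_ne hki, Function.update_of_ne hki]
        simp [ex, hk, hp]
    rw [h1]
    have h2 : HasDerivAt (fun w => Function.update (p s) i w) (Pi.single i (1 : ℂ)) (p s i) :=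
      hasDerivAt_update (p s) i (p s i)
    have h3 : HasFDerivAt (fun x => F (ex L x)) G' (Function.update (p s) i (p s i)) := by
      rw [Function.update_eq_self]
      exact hG
    exact (h3.comp_hasDerivAt (p s i) h2).deriv
  have hsum : (G' fun i : Fin L => v i) = ∑ i ∈ range L, v i *
      deriv (fun w => F (Function.update (fun i => y i + s * v i) i w)) (y i + s * v i) := by
    rw [sum_range]
    have h1 : (fun i : Fin L => v i) = ∑ i : Fin L, (v i) • (Pi.single i (1 : ℂ) : Fin L → ℂ) := by
      funext k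
      rw [Finset.sum_apply]
      simp [Pi.single_apply]
    rw [h1, map_sum]
    refine sum_congr rfl fun i _ => ?_
    rw [map_smul, hpart i, smul_eq_mul]
  rw [← hsum]
  exact hcomp

section

variable {n : ℕ} {R c B p₀ B' : ℝ} {S : (ℕ → ℂ) → ℂ} {D : ℕ → (ℕ → ℂ) → ℂ}

lemma Bx_seg {y y' : ℕ → ℂ} (hy : y ∈ Bx n R) (hy' : y' ∈ Bx n R) {s : ℝ} (h0 : 0 ≤ s)
    (h1 : s ≤ 1) : (fun i => y i + s * (y' i - y i)) ∈ Bx n R := by
  intro i hi
  have := convex_Rc R R (hy i hi) (hy' i hi) (sub_nonneg.2 h1) h0 (by ring)
  have e : y i + s * (y' i - y i) = (1 - s) • y i + s • y' i := by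
    simp only [Complex.real_smul]
    push_cast
    ring
  show y i + s * (y' i - y i) ∈ Rc R R
  rw [e]
  exact this

/-- the gradient along a segment with a real difference of the variable number `j` -/
lemma grad_seg (hA : PotA n R c B p₀ B' S D) {z w : ℕ → ℂ} (hz : z ∈ Bx n R) (hw : w ∈ Bx n R)
    {j : ℕ} (hj : j < n) {t δ : ℝ} (hδ0 : 0 ≤ δ) (ht : w j - z j = t)
    (hδ : ∀ i < n, i ≠ j → ‖w i - z i‖ ≤ δ) :
    t * ((D j w).re - (D j z).re) ≤ -c * t ^ 2 + c / 4 * |t| * δ := by
  set v : ℕ → ℂ := fun i => w i - z i with hv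
  set pt : ℝ → ℕ → ℂ := fun s i => z i + s * v i with hpt
  set Sm : ℝ → ℂ := fun s => ∑ i ∈ range n, v i *
    deriv (fun w => D j (Function.update (pt s) i w)) (pt s i) with hSm
  have hmem : ∀ s : ℝ, 0 ≤ s → s ≤ 1 → pt s ∈ Bx n R := fun s h0 h1 => Bx_seg hz hw h0 h1
  have hder : ∀ s : ℝ, 0 ≤ s → s ≤ 1 → HasDerivAt (fun r : ℝ => t * (D j (pt r)).re)
      (t * (Sm s).re) s := by
    intro s h0 h1
    have k := hasDerivAt_seg (fun ψ ψ' h => (hA.pot.dep ψ ψ' h).2 j) (hA.pot.dan j hj) z v s
      (hmem s h0 h1)
    have k2 := (Complex.reCLM.hasFDerivAt.comp_hasDerivAt s k).const_mul t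
    exact k2
  obtain ⟨ξ, hξ, he⟩ := exists_hasDerivAt_eq_slope (fun r : ℝ => t * (D j (pt r)).re)
    (fun s => t * (Sm s).re) one_pos
    (fun s hs => (hder s hs.1 hs.2).continuousAt.continuousWithinAt)
    (fun s hs => hder s hs.1.le hs.2.le)
  have hξm := hmem ξ hξ.1.le hξ.2.le
  have e0 : pt 0 = z := by funext i; simp [hpt]
  have e1 : pt 1 = w := by funext i; simp [hpt, hv]
  rw [e0, e1, sub_zero, div_one] at he
  have e2 : t * ((D j w).re - (D j z).re) = t * (Sm ξ).re := by
    rw [he]; ring
  rw [e2]
  have hsplit : Sm ξ = t * deriv (fun w => D j (Function.update (pt ξ) j w)) (pt ξ j) +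
      ∑ i ∈ (range n).erase j, v i *
        deriv (fun w => D j (Function.update (pt ξ) i w)) (pt ξ i) := by
    rw [hSm]
    simp only
    rw [← add_sum_erase (range n) _ (mem_range.2 hj)]
    congr 2
  have hoff : ‖∑ i ∈ (range n).erase j, v i *
        deriv (fun w => D j (Function.update (pt ξ) i w)) (pt ξ i)‖ ≤ c / 4 * δ := by
    refine (norm_sum_le _ _).trans ?_
    calc ∑ i ∈ (range n).erase j, ‖v i *
          deriv (fun w => D j (Function.update (pt ξ) i w)) (pt ξ i)‖ ≤
        ∑ i ∈ (range n).erase j, δ *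
          ‖deriv (fun w => D j (Function.update (pt ξ) i w)) (pt ξ i)‖ := by
          refine sum_le_sum fun i hi => ?_
          rw [norm_mul]
          exact mul_le_mul_of_nonneg_right (hδ i (mem_range.1 (mem_of_mem_erase hi))
            (ne_of_mem_erase hi)) (norm_nonneg _)
      _ = δ * ∑ i ∈ (range n).erase j,
          ‖deriv (fun w => D j (Function.update (pt ξ) i w)) (pt ξ i)‖ := by rw [mul_sum]
      _ ≤ δ * (c / 4) := mul_le_mul_of_nonneg_left (hA.off _ hξm j hj) hδ0
      _ = _ := by ring
  have hdiag := hA.pot.conc _ hξm j hj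
  rw [hsplit, Complex.add_re, Complex.re_ofReal_mul, mul_add]
  have k1 : t * (t * (deriv (fun w => D j (Function.update (pt ξ) j w)) (pt ξ j)).re) ≤
      -c * t ^ 2 := by
    have := mul_le_mul_of_nonneg_left hdiag (sq_nonneg t)
    nlinarith
  have k2 : t * (∑ i ∈ (range n).erase j, v i *
        deriv (fun w => D j (Function.update (pt ξ) i w)) (pt ξ i)).re ≤ c / 4 * |t| * δ := by
    refine (le_abs_self _).trans ?_
    rw [abs_mul]
    have := (Complex.abs_re_le_norm _).trans hoff
    calc _ ≤ |t| * (c / 4 * δ) := mul_le_mul_of_nonneg_left this (abs_nonneg _)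
      _ = _ := by ring
  linarith

/-- Lipschitz bound in one variable -/
lemma lip_one (hA : PotA n R c B p₀ B' S D) {y : ℕ → ℂ} (hy : y ∈ Bx n R) {j : ℕ} (hj : j < n)
    {w w' : ℂ} (hw : w ∈ Rc R R) (hw' : w' ∈ Rc R R) :
    ‖S (Function.update y j w) - S (Function.update y j w')‖ ≤ B * ‖w - w'‖ := by
  refine (convex_Rc R R).norm_image_sub_le_of_norm_hasDerivWithin_le
    (f := fun w => S (Function.update y j w)) (f' := fun w => D j (Function.update y j w))
    (fun x hx => ?_) (fun x hx => ?_) hw' hw
  · have hm : Function.update y j x ∈ Bx n R := by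
      intro i hi
      by_cases hij : i = j
      · subst hij; rw [Function.update_self]; exact hx
      · rw [Function.update_of_ne hij]; exact hy i hi
    have := hA.pot.der _ hm j hj
    simp only [Function.update_idem, Function.update_self] at this
    exact this.hasDerivWithinAt
  · have hm : Function.update y j x ∈ Bx n R := by
      intro i hi
      by_cases hij : i = j
      · subst hij; rw [Function.update_self]; exact hx
      · rw [Function.update_of_ne hij]; exact hy i hi
    exact hA.dbd _ hm j hj

/-- Lipschitz bound in all variables -/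
lemma lip_all (hA : PotA n R c B p₀ B' S D) {y y' : ℕ → ℂ} (hy : y ∈ Bx n R) (hy' : y' ∈ Bx n R) :
    ‖S y - S y'‖ ≤ B * ∑ i ∈ range n, ‖y i - y' i‖ := by
  have key : ∀ k ≤ n, ‖S (fun i => if i < k then y i else y' i) - S y'‖ ≤
      B * ∑ i ∈ range k, ‖y i - y' i‖ := by
    intro k
    induction k with
    | zero => intro _; simp
    | succ k ih =>
      intro hk
      have ih := ih (by omega)
      set hyb : ℕ → ℕ → ℂ := fun k i => if i < k then y i else y' i with hh
      have hm : hyb k ∈ Bx n R := by
        intro i hi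
        simp only [hh]
        split_ifs
        · exact hy i hi
        · exact hy' i hi
      have e1 : hyb (k + 1) = Function.update (hyb k) k (y k) := by
        funext i
        by_cases hik : i = k
        · subst hik; simp [hh]
        · rw [Function.update_of_ne hik]
          simp only [hh]
          by_cases h1 : i < k
          · rw [if_pos h1, if_pos (by omega)]
          · rw [if_neg h1, if_neg (by omega)]
      have e2 : hyb k = Function.update (hyb k) k (y' k) := by
        funext i
        by_cases hik : i = k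
        · subst hik; simp [hh]
        · rw [Function.update_of_ne hik]
      have h1 := lip_one hA hm (show k < n by omega) (hy k (by omega)) (hy' k (by omega))
      rw [← e1, ← e2] at h1
      rw [sum_range_succ, mul_add]
      have h2 := norm_add_le (S (hyb (k + 1)) - S (hyb k)) (S (hyb k) - S y')
      rw [sub_add_sub_cancel] at h2
      have h3 : ‖S (hyb k) - S y'‖ ≤ B * ∑ i ∈ range k, ‖y i - y' i‖ := ih
      show ‖S (hyb (k + 1)) - S y'‖ ≤ _
      linarith
  have h1 := key n le_rfl
  have h2 : S (fun i => if i < n then y i else y' i) = S y :=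
    (hA.pot.dep _ _ fun i hi => by simp [hi]).1
  rwa [h2] at h1

lemma qx_add_real (a : ℤ) (z : ℂ) (t : ℝ) :
    HasDerivAt (fun r : ℝ => qx a (z + r)) (Complex.I * a * (z + t) / (2 * π) + Complex.I) t := by
  have hpi : (π : ℂ) ≠ 0 := by exact_mod_cast Real.pi_ne_zero
  have h1 : HasDerivAt (fun w : ℂ => qx a w) (Complex.I * a * (z + t) / (2 * π) + Complex.I)
      (z + t) := by
    have k1 := ((hasDerivAt_pow 2 (z + (t : ℂ))).const_mul (Complex.I * a)).div_const (4 * (π : ℂ))
    have k2 := (hasDerivAt_id (z + (t : ℂ))).const_mul Complex.I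
    have k3 := k1.add k2
    have e : Complex.I * a * (((2 : ℕ) : ℂ) * (z + t) ^ (2 - 1)) / (4 * π) + Complex.I * 1 =
        Complex.I * a * (z + t) / (2 * π) + Complex.I := by
      push_cast
      field_simp
      ring
    rw [e] at k3
    exact k3
  have h2 : HasDerivAt (fun r : ℝ => z + (r : ℂ)) 1 t := by
    have := (Complex.ofRealCLM.hasDerivAt (x := t)).const_add z
    simpa using this
  have := h1.scomp t h2
  rw [one_smul] at this
  exact this

/-- moving the variable number `j` horizontally to its critical value -/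
lemma horiz (hA : PotA n R c B p₀ B' S D) {a : ℕ → ℤ} {z : ℕ → ℂ} (hz : z ∈ Bx n R) {j : ℕ}
    (hj : j < n) (hcrit : Complex.I * a j * z j / (2 * π) + Complex.I + D j z = 0) {y : ℕ → ℂ}
    (hy : y ∈ Bx n R) {v δ : ℝ} (hδ0 : 0 ≤ δ) (hp : z j + v ∈ Rc R R)
    (hδ : ∀ i < n, i ≠ j → ‖y i - z i‖ ≤ δ) :
    (S (Function.update y j (z j + v)) + qx (a j) (z j + v)).re ≤
      (S (Function.update y j (z j)) + qx (a j) (z j)).re - c / 2 * v ^ 2 + c / 4 * |v| * δ := by
  set w : ℝ → ℕ → ℂ := fun s => Function.update y j (z j + (s * v : ℝ)) with hw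
  have hin : ∀ s : ℝ, 0 ≤ s → s ≤ 1 → z j + (s * v : ℝ) ∈ Rc R R := by
    intro s h0 h1
    have := convex_Rc R R (hz j hj) hp (sub_nonneg.2 h1) h0 (by ring)
    have e : z j + ((s * v : ℝ) : ℂ) = (1 - s) • z j + s • (z j + (v : ℂ)) := by
      simp only [Complex.real_smul]
      push_cast
      ring
    rw [e]
    exact this
  have hwm : ∀ s : ℝ, 0 ≤ s → s ≤ 1 → w s ∈ Bx n R := by
    intro s h0 h1 i hi
    by_cases hij : i = j
    · subst hij
      simp only [hw, Function.update_self]
      exact hin s h0 h1
    · simp only [hw, Function.update_of_ne hij]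
      exact hy i hi
  set g' : ℝ → ℂ := fun s => v * (D j (w s) + (Complex.I * a j * (z j + (s * v : ℝ)) / (2 * π) +
    Complex.I)) with hg'
  have hder : ∀ s : ℝ, 0 ≤ s → s ≤ 1 → HasDerivAt (fun s : ℝ =>
      S (w s) + qx (a j) (z j + (s * v : ℝ))) (g' s) s := by
    intro s h0 h1
    have hm : HasDerivAt (fun s : ℝ => s * v) v s := by
      simpa using (hasDerivAt_id s).mul_const v
    have k1 : HasDerivAt (fun r : ℝ => S (Function.update y j (z j + (r : ℂ)))) (D j (w s)) (s * v) := by
      have d1 := hA.pot.der _ (hwm s h0 h1) j hj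
      simp only [hw, Function.update_idem, Function.update_self] at d1
      have d2 : HasDerivAt (fun r : ℝ => z j + (r : ℂ)) 1 (s * v) := by
        have := (Complex.ofRealCLM.hasDerivAt (x := s * v)).const_add (z j)
        simpa using this
      have d3 := HasDerivAt.scomp (s * v) (h := fun r : ℝ => z j + (r : ℂ)) d1 d2
      rw [one_smul] at d3
      exact d3
    have k2 := k1.add (qx_add_real (a j) (z j) (s * v))
    have k3 := k2.scomp s hm
    rw [Complex.real_smul] at k3
    exact k3
  have hgre : ∀ s : ℝ, 0 < s → s ≤ 1 → (g' s).re ≤ -c * s * v ^ 2 + c / 4 * |v| * δ := by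
    intro s h0 h1
    have e1 : (g' s).re = v * ((D j (w s)).re - (D j z).re) := by
      have e2 : g' s = v * (D j (w s) - D j z) +
          ((a j * s * v ^ 2 / (2 * π) : ℝ) : ℂ) * Complex.I := by
        have e3 : Complex.I = -(Complex.I * a j * z j / (2 * π)) - D j z := by
          linear_combination hcrit
        have hpi : (π : ℂ) ≠ 0 := by exact_mod_cast Real.pi_ne_zero
        rw [hg']
        simp only
        have e4 : D j (w s) + (Complex.I * a j * (z j + ((s * v : ℝ) : ℂ)) / (2 * π) + Complex.I) =
            D j (w s) - D j z + Complex.I * a j * ((s * v : ℝ) : ℂ) / (2 * π) := by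
          linear_combination hcrit
        rw [e4]
        push_cast
        field_simp
      rw [e2, Complex.add_re, Complex.re_ofReal_mul, Complex.sub_re, Complex.mul_I_re,
        Complex.ofReal_im, neg_zero, add_zero]
    rw [e1]
    have k := grad_seg hA hz (hwm s h0.le h1) hj (t := s * v) hδ0
      (by simp [hw]) (by
        intro i hi hij
        simp only [hw, Function.update_of_ne hij]
        exact hδ i hi hij)
    have k2 : s * (v * ((D j (w s)).re - (D j z).re)) ≤
        s * (-c * s * v ^ 2 + c / 4 * |v| * δ) := by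
      rw [abs_mul, abs_of_pos h0] at k
      nlinarith
    exact le_of_mul_le_mul_left k2 h0
  have hder2 : ∀ s : ℝ, 0 ≤ s → s ≤ 1 → HasDerivAt (fun s : ℝ =>
      (S (w s) + qx (a j) (z j + (s * v : ℝ))).re + c / 2 * v ^ 2 * s ^ 2 - c / 4 * |v| * δ * s)
      ((g' s).re + c * v ^ 2 * s - c / 4 * |v| * δ) s := by
    intro s h0 h1
    have k1 := Complex.reCLM.hasFDerivAt.comp_hasDerivAt s (hder s h0 h1)
    have k2 := ((hasDerivAt_id s).pow 2).const_mul (c / 2 * v ^ 2)
    have k3 := (hasDerivAt_id s).const_mul (c / 4 * |v| * δ)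
    have k4 := (k1.add k2).sub k3
    have e : (g' s).re + c / 2 * v ^ 2 * (((2 : ℕ) : ℝ) * (id s) ^ (2 - 1) * 1) -
        c / 4 * |v| * δ * 1 = (g' s).re + c * v ^ 2 * s - c / 4 * |v| * δ := by
      simp
      ring
    rw [← e]
    exact k4
  obtain ⟨ξ, hξ, he⟩ := exists_hasDerivAt_eq_slope (fun s : ℝ =>
      (S (w s) + qx (a j) (z j + (s * v : ℝ))).re + c / 2 * v ^ 2 * s ^ 2 - c / 4 * |v| * δ * s)
    (fun s => (g' s).re + c * v ^ 2 * s - c / 4 * |v| * δ) one_pos
    (fun s hs => (hder2 s hs.1 hs.2).continuousAt.continuousWithinAt)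
    (fun s hs => hder2 s hs.1.le hs.2.le)
  have h1 := hgre ξ hξ.1 hξ.2.le
  have e0 : w 0 = Function.update y j (z j) := by simp [hw]
  have e1 : w 1 = Function.update y j (z j + v) := by simp [hw]
  rw [e0, e1] at he
  simp only [one_mul, zero_mul, Complex.ofReal_zero, add_zero, sub_zero, div_one, one_pow,
    mul_one, ne_eq, OfNat.ofNat_ne_zero, not_false_eq_true, zero_pow, mul_zero] at he
  linarith

lemma Uj_update (a : ℕ → ℤ) (y : ℕ → ℂ) {j : ℕ} (hj : j < n) (w : ℂ) :
    Uj S a n (Function.update y j w) = S (Function.update y j w) + qx (a j) w +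
      ∑ i ∈ (range n).erase j, qx (a i) (y i) := by
  unfold Uj
  rw [add_assoc]
  congr 1
  rw [← add_sum_erase (range n) _ (mem_range.2 hj), Function.update_self]
  congr 1
  refine sum_congr rfl fun i hi => ?_
  rw [Function.update_of_ne (ne_of_mem_erase hi)]
  rfl

/-- replacing the variable with the largest deviation by its critical value -/
lemma repl (hA : PotA n R c B p₀ B' S D) {a : ℕ → ℤ} {z : ℕ → ℂ} (hz : z ∈ Bx n R)
    (hcrit : ∀ i < n, Complex.I * a i * z i / (2 * π) + Complex.I + D i z = 0)
    {ρ : ℝ} (hρ : 0 < ρ) (hρR : ρ < R) (hzr : ∀ i < n, |(z i).re| ≤ ρ / 2)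
    (hz0 : ∀ i < n, 0 ≤ (z i).im) (hzi : ∀ i < n, (z i).im ≤ ρ / 4)
    (hzc : ∀ i < n, (|(a i : ℝ)| * ρ / (2 * π) + 1 + B) * (z i).im ≤ c * ρ ^ 2 / 32)
    {y : ℕ → ℂ} (hy : ∀ i < n, y i ∈ Pth ρ (z i).im) {j : ℕ} (hj : j < n)
    (hmax : ∀ i < n, |(y i).re - (z i).re| ≤ |(y j).re - (z j).re|) :
    (Uj S a n y).re ≤ (Uj S a n (Function.update y j (z j))).re := by
  have hc := hA.pot.hc
  have hB := hA.hB
  have hyB : y ∈ Bx n R := by
    intro i hi
    obtain ⟨h1, h2, h3, -⟩ := hy i hi
    refine ⟨h1.trans_lt hρR, ?_⟩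
    rw [abs_of_nonneg h2]
    linarith [hzi i hi]
  set v : ℝ := (y j).re - (z j).re with hv
  set p : ℂ := z j + v with hp
  have hpre : p.re = (y j).re := by rw [hp, hv]; simp
  have hpim : p.im = (z j).im := by rw [hp]; simp
  obtain ⟨y1, y2, y3, y4⟩ := hy j hj
  have hpR : p ∈ Rc R R := by
    refine ⟨by rw [hpre]; exact y1.trans_lt hρR, ?_⟩
    rw [hpim, abs_of_nonneg (hz0 j hj)]
    linarith [hzi j hj]
  -- the vertical part
  set V : ℝ := if (y j).im = (z j).im then 0 else c * ρ ^ 2 / 32 with hV
  have hvert : (S y + qx (a j) (y j)).re ≤ (S (Function.update y j p) + qx (a j) p).re + V := by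
    by_cases him : (y j).im = (z j).im
    · have : p = y j := Complex.ext hpre (by rw [hpim, him])
      rw [this, Function.update_eq_self, hV, if_pos him, add_zero]
    · rw [hV, if_neg him]
      have hyρ : |(y j).re| = ρ := y4.resolve_left him
      have k1 : ‖S y - S (Function.update y j p)‖ ≤ B * (z j).im := by
        have := lip_one hA hyB hj (hyB j hj) hpR
        rw [Function.update_eq_self] at this
        refine this.trans (mul_le_mul_of_nonneg_left ?_ hB.le)
        have e : y j - p = (((y j).im - (z j).im : ℝ) : ℂ) * Complex.I := by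
          apply Complex.ext <;> simp [hpre, hpim]
        rw [e, norm_mul, Complex.norm_I, mul_one, Complex.norm_real, Real.norm_eq_abs, abs_sub_comm,
          abs_of_nonneg (by linarith)]
        linarith
      have k2 : (S y - S (Function.update y j p)).re ≤ B * (z j).im :=
        (Complex.re_le_norm _).trans k1
      have k3 : (qx (a j) (y j)).re - (qx (a j) p).re ≤
          (|(a j : ℝ)| * ρ / (2 * π) + 1) * (z j).im := by
        rw [qx_re, qx_re, hpre, hpim]
        have hpi := Real.pi_pos
        have e : -(a j * (y j).re * (y j).im) / (2 * π) - (y j).im -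
            (-(a j * (y j).re * (z j).im) / (2 * π) - (z j).im) =
            ((a j : ℝ) * (y j).re / (2 * π) + 1) * ((z j).im - (y j).im) := by
          field_simp
          ring
        rw [e]
        have k4 : (a j : ℝ) * (y j).re / (2 * π) + 1 ≤ |(a j : ℝ)| * ρ / (2 * π) + 1 := by
          have : (a j : ℝ) * (y j).re ≤ |(a j : ℝ)| * ρ := by
            rw [← hyρ, ← abs_mul]
            exact le_abs_self _
          gcongr
        have k5 : 0 ≤ |(a j : ℝ)| * ρ / (2 * π) + 1 := by positivity
        have k6 : 0 ≤ (z j).im - (y j).im := by linarith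
        calc _ ≤ (|(a j : ℝ)| * ρ / (2 * π) + 1) * ((z j).im - (y j).im) :=
              mul_le_mul_of_nonneg_right k4 k6
          _ ≤ _ := mul_le_mul_of_nonneg_left (by linarith) k5
      have k7 := hzc j hj
      rw [Complex.sub_re] at k2
      rw [Complex.add_re, Complex.add_re]
      nlinarith
  -- the horizontal part
  have hall : ∀ i < n, (y i).im ≠ (z i).im → ρ / 2 ≤ |v| := by
    intro i hi hne
    obtain ⟨-, -, -, h4⟩ := hy i hi
    have h5 := h4.resolve_left hne
    have h6 := abs_sub_abs_le_abs_sub (y i).re (z i).re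
    have h7 := hzr i hi
    have h8 := hmax i hi
    linarith
  have hfin : (S y + qx (a j) (y j)).re ≤ (S (Function.update y j (z j)) + qx (a j) (z j)).re := by
    by_cases hcase : ∀ i < n, (y i).im = (z i).im
    · have hor := horiz hA (a := a) hz hj (hcrit j hj) hyB (v := v) (δ := |v|) (abs_nonneg _) hpR (by
        intro i hi _
        have e : y i - z i = (((y i).re - (z i).re : ℝ) : ℂ) := by
          apply Complex.ext
          · simp
          · simp [hcase i hi]
        rw [e, Complex.norm_real, Real.norm_eq_abs]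
        exact hmax i hi)
      rw [hV, if_pos (hcase j hj)] at hvert
      have e : |v| * |v| = v ^ 2 := by rw [← sq, sq_abs]
      have e2 : c / 4 * |v| * |v| = c / 4 * v ^ 2 := by rw [mul_assoc, e]
      rw [e2] at hor
      have : 0 ≤ c / 4 * v ^ 2 := by positivity
      linarith
    · push Not at hcase
      obtain ⟨i₀, hi₀, hne⟩ := hcase
      have hv2 := hall i₀ hi₀ hne
      have hor := horiz hA (a := a) hz hj (hcrit j hj) hyB (v := v) (δ := |v| + ρ / 4)
        (by positivity) hpR (by
        intro i hi _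
        have h1 : ‖y i - z i‖ ≤ |(y i - z i).re| + |(y i - z i).im| :=
          Complex.norm_le_abs_re_add_abs_im _
        rw [Complex.sub_re, Complex.sub_im] at h1
        have h2 : |(y i).im - (z i).im| ≤ ρ / 4 := by
          obtain ⟨-, h2, h3, -⟩ := hy i hi
          rw [abs_sub_comm, abs_of_nonneg (by linarith)]
          linarith [hzi i hi]
        linarith [hmax i hi])
      have hV2 : V ≤ c * ρ ^ 2 / 32 := by
        rw [hV]
        split_ifs
        · positivity
        · exact le_rfl
      have e : v ^ 2 = |v| ^ 2 := (sq_abs v).symm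
      rw [e] at hor
      have k : 0 ≤ c * (|v| - ρ / 2) * (|v| + ρ / 4) := by
        have : 0 ≤ |v| - ρ / 2 := by linarith
        positivity
      nlinarith
  rw [Uj_update a y hj (z j)]
  have e := Uj_update (S := S) (n := n) a y hj (y j)
  rw [Function.update_eq_self] at e
  rw [e, Complex.add_re, Complex.add_re (S (Function.update y j (z j)) + qx (a j) (z j))]
  linarith

/-- the maximum on the deformed path -/
theorem max_path (hA : PotA n R c B p₀ B' S D) {a : ℕ → ℤ} {z : ℕ → ℂ} (hz : z ∈ Bx n R)
    (hcrit : ∀ i < n, Complex.I * a i * z i / (2 * π) + Complex.I + D i z = 0)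
    {ρ : ℝ} (hρ : 0 < ρ) (hρR : ρ < R) (hzr : ∀ i < n, |(z i).re| ≤ ρ / 2)
    (hz0 : ∀ i < n, 0 ≤ (z i).im) (hzi : ∀ i < n, (z i).im ≤ ρ / 4)
    (hzc : ∀ i < n, (|(a i : ℝ)| * ρ / (2 * π) + 1 + B) * (z i).im ≤ c * ρ ^ 2 / 32)
    {y : ℕ → ℂ} (hy : ∀ i < n, y i ∈ Pth ρ (z i).im) : (Uj S a n y).re ≤ (Uj S a n z).re := by
  classical
  have key : ∀ k : ℕ, ∀ y : ℕ → ℂ, (∀ i < n, y i ∈ Pth ρ (z i).im) →
      ((range n).filter fun i => y i ≠ z i).card ≤ k → (Uj S a n y).re ≤ (Uj S a n z).re := by
    intro k
    have heq : ∀ y : ℕ → ℂ, (∀ i < n, y i = z i) → Uj S a n y = Uj S a n z := by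
      intro y h
      unfold Uj
      rw [(hA.pot.dep y z h).1]
      congr 1
      exact sum_congr rfl fun i hi => by rw [h i (mem_range.1 hi)]
    induction k with
    | zero =>
      intro y hy hk
      have h0 : (range n).filter (fun i => y i ≠ z i) = ∅ := by
        rw [← card_eq_zero]; omega
      refine le_of_eq ?_
      rw [heq y fun i hi => ?_]
      by_contra hne
      have : i ∈ (range n).filter fun i => y i ≠ z i := mem_filter.2 ⟨mem_range.2 hi, hne⟩
      rw [h0] at this
      exact absurd this (notMem_empty _)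
    | succ k ih =>
      intro y hy hk
      by_cases hall : ∀ i < n, y i = z i
      · rw [heq y hall]
      · push Not at hall
        obtain ⟨i₀, hi₀, hne⟩ := hall
        obtain ⟨j, hj, hmax⟩ := exists_max_image (range n)
          (fun i => |(y i).re - (z i).re|) ⟨i₀, mem_range.2 hi₀⟩
        have hj' := mem_range.1 hj
        have hmax' : ∀ i < n, |(y i).re - (z i).re| ≤ |(y j).re - (z j).re| :=
          fun i hi => hmax i (mem_range.2 hi)
        have hyj : y j ≠ z j := by
          intro heqj
          have h0 : ∀ i < n, (y i).re = (z i).re := by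
            intro i hi
            have := hmax' i hi
            rw [heqj, sub_self, abs_zero] at this
            have := abs_nonpos_iff.1 this
            linarith
          apply hne
          refine Complex.ext (h0 i₀ hi₀) ?_
          obtain ⟨-, -, -, h4⟩ := hy i₀ hi₀
          rcases h4 with h4 | h4
          · exact h4
          · rw [h0 i₀ hi₀] at h4
            have := hzr i₀ hi₀
            linarith
        refine (repl hA hz hcrit hρ hρR hzr hz0 hzi hzc hy hj' hmax').trans (ih _ ?_ ?_)
        · intro i hi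
          by_cases hij : i = j
          · subst hij
            rw [Function.update_self]
            refine ⟨by linarith [hzr i hi], hz0 i hi, le_rfl, Or.inl rfl⟩
          · rw [Function.update_of_ne hij]
            exact hy i hi
        · have hsub : (range n).filter (fun i => Function.update y j (z j) i ≠ z i) ⊆
              ((range n).filter fun i => y i ≠ z i).erase j := by
            intro i hi
            rw [mem_filter] at hi
            have hij : i ≠ j := by
              intro h
              subst h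
              exact hi.2 (by rw [Function.update_self])
            rw [Function.update_of_ne hij] at hi
            exact mem_erase.2 ⟨hij, mem_filter.2 hi⟩
          have h1 := card_le_card hsub
          rw [card_erase_of_mem (mem_filter.2 ⟨hj, hyj⟩)] at h1
          omega
  exact key _ y hy le_rfl

end

end Pool.Agent.Y86.CH
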